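import Pool.Agent.Helper80.SI.Final

/-!
# MP_d0c42b_gt: symplectic isotopy of symplectomorphisms of the torus

Two homotopic symplectomorphisms of the torus `ℝ ^ (2 n) / ℤ ^ (2 n)` are symplectically isotopic if
and only if they are joined by a finite chain of elementary steps (`Step`, five explicit conditions on
the matrices `DF(x) DG(x)⁻¹`), if and only if for every `ε > 0` they are joined by a finite chain of
symplectomorphisms with consecutive relative distance less than `ε`.
-/

set_option autoImplicit false

open Pool.Agent.Helper80.SI

theorem Pool.Agent.Results.MP_d0c42b_gt.IsotopyChains.result (n : ℕ)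
    (A : Matrix (Fin n ⊕ Fin n) (Fin n ⊕ Fin n) ℤ) (F G : E n → E n) :
    List.TFAE [Isotopic n A F G, Relation.TransGen (Step n A) F G,
      ∀ ε : ℝ, 0 < ε → Relation.TransGen (Close n A ε) F G] :=
  main n A F G
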